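import Pool.Agent.W5h72.PP.Fin

/-!
# MP_f8c884_nt: the excluded residue classes of `s` have a positive proportion of exceptions
-/

set_option autoImplicit false

open Filter Topology

namespace Pool.Agent.W5h72.PP

theorem Pg_ge (s k : ℕ) (hs : 3 < s) (hk : 1 ≤ k) : k ^ 2 ≤ Pg s k := by
  unfold Pg
  obtain ⟨j, rfl⟩ : ∃ j, k = j + 1 := ⟨k - 1, by omega⟩
  rw [Nat.add_sub_cancel]
  obtain ⟨c, hc⟩ : ∃ c, (j + 1) * j = 2 * c := by
    have := (Nat.even_mul_succ_self j).two_dvd
    rw [mul_comm] at this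
    exact this
  rw [hc, Nat.mul_div_cancel_left _ (by norm_num)]
  have h1 : 2 * c ≤ (s - 2) * c := Nat.mul_le_mul_right _ (by omega)
  nlinarith

open Classical in
theorem neg_card (s : ℕ) (hs : 3 < s) (h : s % 12 = 0 ∨ s % 12 = 4) (n : ℕ) :
    n ≤ ((Finset.Icc 1 (12 * n)).filter fun N => ¬ Rep s N).card + 2 * (Nat.sqrt (12 * n) + 1) := by
  have h1 : (Finset.range n).image (fun i => 12 * i + 2) ⊆
      ((Finset.Icc 1 (12 * n)).filter fun N => ¬ Rep s N) ∪
      ((Finset.range (Nat.sqrt (12 * n) + 1)).image (fun k => 1 + Pg s k) ∪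
        (Finset.range (Nat.sqrt (12 * n) + 1)).image (fun k => 2 + Pg s k)) := by
    intro N hN
    rw [Finset.mem_image] at hN
    obtain ⟨i, hi, rfl⟩ := hN
    rw [Finset.mem_range] at hi
    rw [Finset.mem_union]
    by_cases hr : Rep s (12 * i + 2)
    · right
      obtain ⟨k, hk, hk2⟩ := sh s hs h (12 * i + 2) (by omega) hr
      have h2 := Pg_ge s k hs hk
      have h3 : k < Nat.sqrt (12 * n) + 1 := by
        rw [Nat.lt_succ_iff, Nat.le_sqrt']
        omega
      rw [Finset.mem_union, Finset.mem_image, Finset.mem_image]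
      rcases hk2 with e | e
      · exact Or.inl ⟨k, Finset.mem_range.mpr h3, e.symm⟩
      · exact Or.inr ⟨k, Finset.mem_range.mpr h3, e.symm⟩
    · left
      rw [Finset.mem_filter, Finset.mem_Icc]
      exact ⟨by omega, hr⟩
  have h2 := Finset.card_le_card h1
  rw [Finset.card_image_of_injective _ (fun a b hab => by simpa using hab), Finset.card_range] at h2
  have h3 := Finset.card_union_le ((Finset.Icc 1 (12 * n)).filter fun N => ¬ Rep s N)
    ((Finset.range (Nat.sqrt (12 * n) + 1)).image (fun k => 1 + Pg s k) ∪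
        (Finset.range (Nat.sqrt (12 * n) + 1)).image (fun k => 2 + Pg s k))
  have h4 := Finset.card_union_le ((Finset.range (Nat.sqrt (12 * n) + 1)).image (fun k => 1 + Pg s k))
    ((Finset.range (Nat.sqrt (12 * n) + 1)).image (fun k => 2 + Pg s k))
  have h5 := Finset.card_image_le (s := Finset.range (Nat.sqrt (12 * n) + 1))
    (f := fun k => 1 + Pg s k)
  have h6 := Finset.card_image_le (s := Finset.range (Nat.sqrt (12 * n) + 1))
    (f := fun k => 2 + Pg s k)
  rw [Finset.card_range] at h5 h6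
  omega

open Classical in
theorem not_dens (s : ℕ) (hs : 3 < s) (h : s % 12 = 0 ∨ s % 12 = 4) :
    ¬ Tendsto (fun X : ℕ => (((Finset.Icc 1 X).filter fun N => Rep s N).card : ℝ) / X) atTop
      (𝓝 1) := by
  intro ht
  have h1 := ht.eventually (lt_mem_nhds (show (23 / 24 : ℝ) < 1 by norm_num))
  rw [eventually_atTop] at h1
  obtain ⟨X0, hX0⟩ := h1
  set n : ℕ := 12 * (100 + X0) ^ 2 with hn
  have hn1 : X0 ≤ 12 * n := by
    rw [hn]; nlinarith [Nat.zero_le X0]
  have h2 := hX0 (12 * n) hn1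
  have h3 := neg_card s hs h n
  have hsq : Nat.sqrt (12 * n) = 12 * (100 + X0) := by
    rw [hn, show 12 * (12 * (100 + X0) ^ 2) = (12 * (100 + X0)) * (12 * (100 + X0)) by ring,
      Nat.sqrt_eq]
  rw [hsq] at h3
  have e := Finset.card_filter_add_card_filter_not (s := Finset.Icc 1 (12 * n)) (Rep s)
  rw [Nat.card_Icc, Nat.add_sub_cancel] at e
  have hpos : (0 : ℝ) < ((12 * n : ℕ) : ℝ) := by
    have : 0 < 12 * n := by rw [hn]; positivity
    exact_mod_cast this
  rw [lt_div_iff₀ hpos] at h2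
  have e' : (((Finset.Icc 1 (12 * n)).filter fun N => Rep s N).card : ℝ) +
      (((Finset.Icc 1 (12 * n)).filter fun N => ¬ Rep s N).card : ℝ) = ((12 * n : ℕ) : ℝ) := by
    exact_mod_cast e
  have h3' : (n : ℝ) ≤ (((Finset.Icc 1 (12 * n)).filter fun N => ¬ Rep s N).card : ℝ) +
      2 * (12 * (100 + X0) + 1) := by exact_mod_cast h3
  have hnr : (n : ℝ) = 12 * (100 + X0) ^ 2 := by rw [hn]; push_cast; ring
  have hX0r : (0 : ℝ) ≤ X0 := Nat.cast_nonneg _
  push_cast at h2 e'
  nlinarith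

end Pool.Agent.W5h72.PP
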