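import Pool.Agent.W5h72.PP.Defs

/-!
# MP_f8c884_nt: the estimate for one block
-/

set_option autoImplicit false

namespace Pool.Agent.W5h72.PP

theorem practical_one : Practical 1 := by
  refine ⟨le_refl _, fun m h1 h2 => ⟨{1}, by simp, ?_⟩⟩
  have : m = 1 := by omega
  simp [this]

theorem practical_two_pow (pr : S_PR) (a : ℕ) : Practical (2 ^ a) := by
  have h := pr 1 (2 ^ a) practical_one Nat.one_le_two_pow (fun p hp hd => by
    have := (Nat.prime_dvd_prime_iff_eq hp Nat.prime_two).mp (hp.dvd_of_dvd_pow hd)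
    omega)
  rwa [one_mul] at h

theorem practical_two_three_pow (pr : S_PR) (b : ℕ) : Practical (2 * 3 ^ b) := by
  have h2 : Practical 2 := by simpa using practical_two_pow pr 1
  exact pr 2 (3 ^ b) h2 (Nat.one_le_pow _ _ (by norm_num)) (fun p hp hd => by
    have := (Nat.prime_dvd_prime_iff_eq hp Nat.prime_three).mp (hp.dvd_of_dvd_pow hd)
    omega)

/-- a modulus of a given size -/
theorem exists_modulus (pr : S_PR) (r2 : S_R2) (r3 : S_R3) (s : ℕ) (hs : 3 < s)
    (h0 : s % 12 ≠ 0) (h4 : s % 12 ≠ 4) (Y : ℕ) (hY : 2 ≤ Y) :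
    ∃ M, Y ≤ M ∧ M ≤ 3 * Y ∧ Practical M ∧
      ∀ N : ℤ, ∃ k : ℕ, 1 ≤ k ∧ k ≤ 2 * M ∧ (M : ℤ) ∣ N - Pg s k := by
  by_cases h : s % 4 = 0
  · have h8 : s % 12 = 8 := by omega
    have hex : ∃ b, Y ≤ 2 * 3 ^ b :=
      ⟨Y, by
        have h3 : Y < 3 ^ Y := Nat.lt_pow_self (by norm_num)
        omega⟩
    classical
    have hf := Nat.find_spec hex
    set b := Nat.find hex with hb
    refine ⟨2 * 3 ^ b, hf, ?_, practical_two_three_pow pr b, fun N => ?_⟩
    · rcases Nat.eq_zero_or_pos b with h1 | h1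
      · rw [h1]; omega
      · have h2 := Nat.find_min hex (m := b - 1) (by omega)
        have h3 : 3 ^ b = 3 * 3 ^ (b - 1) := by
          rw [← pow_succ']
          congr 1
          omega
        omega
    · obtain ⟨k, k1, k2, k3⟩ := r3 s hs h8 b N
      exact ⟨k, k1, by omega, by push_cast; exact k3⟩
  · have hex : ∃ a, Y ≤ 2 ^ a := ⟨Y, Nat.lt_two_pow_self.le⟩
    classical
    have hf := Nat.find_spec hex
    set a := Nat.find hex with ha
    refine ⟨2 ^ a, hf, ?_, practical_two_pow pr a, fun N => ?_⟩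
    · rcases Nat.eq_zero_or_pos a with h1 | h1
      · rw [h1]; omega
      · have h2 := Nat.find_min hex (m := a - 1) (by omega)
        have h3 : 2 ^ a = 2 * 2 ^ (a - 1) := by
          rw [← pow_succ']
          congr 1
          omega
        omega
    · obtain ⟨k, k1, k2, k3⟩ := r2 s hs h a N
      exact ⟨k, k1, by omega, by push_cast; exact k3⟩

theorem Pg_le (s k : ℕ) (hs : 3 < s) (hk : 1 ≤ k) : Pg s k ≤ (s - 2) * k ^ 2 := by
  unfold Pg
  have h1 : k * (k - 1) / 2 * 2 ≤ k * (k - 1) := Nat.div_mul_le_self _ _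
  obtain ⟨j, rfl⟩ : ∃ j, k = j + 1 := ⟨k - 1, by omega⟩
  obtain ⟨m, hm⟩ : ∃ m, s - 2 = m + 2 := ⟨s - 4, by omega⟩
  rw [hm]
  simp only [Nat.add_sub_cancel] at h1 ⊢
  set t := (j + 1) * j / 2
  nlinarith [Nat.zero_le (m * j), Nat.zero_le (m * j * j), Nat.zero_le m, Nat.mul_le_mul_left m h1]

open Classical in
theorem block_card (pr : S_PR) (s M X : ℕ) (hs : 3 < s) (hM : 2 ≤ M) (hMp : Practical M)
    (hk : ∀ N : ℤ, ∃ k : ℕ, 1 ≤ k ∧ k ≤ 2 * M ∧ (M : ℤ) ∣ N - Pg s k)
    (hX1 : (s - 2) * (2 * M) ^ 2 ≤ X) (T : ℕ) (hX2 : 2 * X ≤ T * M * M) :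
    ((Finset.Ioc X (2 * X)).filter fun N => ¬ Rep s N).card ≤
      2 * M * ((Finset.Icc 1 (T * M)).filter fun q => ∃ p, p.Prime ∧ M < p ∧ p ∣ q).card := by
  have h1 : ((Finset.Ioc X (2 * X)).filter fun N => ¬ Rep s N) ⊆
      ((Finset.Icc 1 (2 * M)) ×ˢ
        ((Finset.Icc 1 (T * M)).filter fun q => ∃ p, p.Prime ∧ M < p ∧ p ∣ q)).image
        (fun x : ℕ × ℕ => M * x.2 + Pg s x.1) := by
    intro N hN
    rw [Finset.mem_filter, Finset.mem_Ioc] at hN
    obtain ⟨⟨hN1, hN2⟩, hN3⟩ := hN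
    obtain ⟨k, k1, k2, k3⟩ := hk N
    have hPk : Pg s k ≤ X := by
      refine (Pg_le s k hs k1).trans (le_trans ?_ hX1)
      exact Nat.mul_le_mul_left _ (Nat.pow_le_pow_left k2 2)
    have hd : M ∣ N - Pg s k := by
      have e : (N : ℤ) - Pg s k = ((N - Pg s k : ℕ) : ℤ) := by
        push_cast [Nat.cast_sub (hPk.trans hN1.le)]
        ring
      rw [e] at k3
      exact_mod_cast k3
    obtain ⟨q, hq⟩ := hd
    have hN : N = M * q + Pg s k := by omega
    have hq1 : 1 ≤ q := by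
      rcases Nat.eq_zero_or_pos q with h | h
      · rw [h] at hq; omega
      · exact h
    have hq2 : q ≤ T * M := by
      have : M * q ≤ M * (T * M) := by
        calc M * q ≤ 2 * X := by omega
          _ ≤ T * M * M := hX2
          _ = M * (T * M) := by ring
      exact Nat.le_of_mul_le_mul_left this (by omega)
    rw [Finset.mem_image]
    refine ⟨(k, q), ?_, hN.symm⟩
    rw [Finset.mem_product, Finset.mem_Icc, Finset.mem_filter, Finset.mem_Icc]
    refine ⟨⟨k1, k2⟩, ⟨hq1, hq2⟩, ?_⟩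
    by_contra hcon
    push Not at hcon
    refine hN3 ⟨M * q, k, pr M q hMp hq1 (fun p hp hpd => ?_), k1, hN⟩
    by_contra hlt
    exact hcon p hp (by omega) hpd
  refine (Finset.card_le_card h1).trans (Finset.card_image_le.trans ?_)
  rw [Finset.card_product, Nat.card_Icc]
  simp

open Classical in
theorem blk (pr : S_PR) (r2 : S_R2) (r3 : S_R3) (ct : S_CT) (s : ℕ) (hs : 3 < s)
    (h0 : s % 12 ≠ 0) (h4 : s % 12 ≠ 4) : ∃ C : ℝ, 0 < C ∧ ∀ X : ℕ, 2 ≤ X →
      (((Finset.Ioc X (2 * X)).filter fun N => ¬ Rep s N).card : ℝ) ≤ C * X / Real.log X := by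
  obtain ⟨m, hm, hm2⟩ : ∃ m : ℕ, s - 2 = m ∧ 2 ≤ m := ⟨s - 2, rfl, by omega⟩
  have hmr : (2 : ℝ) ≤ m := by exact_mod_cast hm2
  have hl2 : 0 < Real.log 2 := Real.log_pos (by norm_num)
  have hl4 : 0 < Real.log 4 := Real.log_pos (by norm_num)
  have hlm : 0 < Real.log (144 * m) := Real.log_pos (by linarith)
  set T : ℕ := 288 * m with hT
  set c : ℝ := 2 + Real.log (144 * m) / Real.log 2 with hc
  have hc0 : 0 < c := by positivity
  refine ⟨2 * Real.log 4 * (T : ℝ) ^ 2 * c + Real.log (144 * m), by positivity, ?_⟩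
  intro X hX
  have hXr : (2 : ℝ) ≤ X := by exact_mod_cast hX
  have hlX : 0 < Real.log X := Real.log_pos (by linarith)
  rw [le_div_iff₀ hlX]
  by_cases hXs : X < 144 * m
  · have e1 : (((Finset.Ioc X (2 * X)).filter fun N => ¬ Rep s N).card : ℝ) ≤ X := by
      have := Finset.card_filter_le (Finset.Ioc X (2 * X)) (fun N => ¬ Rep s N)
      rw [Nat.card_Ioc] at this
      have h' : ((Finset.Ioc X (2 * X)).filter fun N => ¬ Rep s N).card ≤ X := by omega
      exact_mod_cast h'
    have e2 : Real.log X ≤ Real.log (144 * m) := by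
      refine Real.log_le_log (by linarith) ?_
      exact_mod_cast hXs.le
    calc (((Finset.Ioc X (2 * X)).filter fun N => ¬ Rep s N).card : ℝ) * Real.log X
        ≤ X * Real.log (144 * m) := mul_le_mul e1 e2 hlX.le (by linarith)
      _ ≤ (2 * Real.log 4 * (T : ℝ) ^ 2 * c + Real.log (144 * m)) * X := by
          have : 0 ≤ 2 * Real.log 4 * (T : ℝ) ^ 2 * c * X := by positivity
          nlinarith
  · push Not at hXs
    set Y : ℕ := Nat.sqrt (X / (36 * m)) with hY
    have hm36 : 0 < 36 * m := by omega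
    have hY2 : 2 ≤ Y := by
      rw [hY, Nat.le_sqrt, Nat.le_div_iff_mul_le hm36]
      omega
    have hY3 : Y * Y * (36 * m) ≤ X := by
      have h1 : Y * Y ≤ X / (36 * m) := Nat.sqrt_le _
      exact (Nat.mul_le_mul_right _ h1).trans (Nat.div_mul_le_self _ _)
    have hY4 : X < (Y + 1) * (Y + 1) * (36 * m) := by
      have h1 : X / (36 * m) < (Y + 1) * (Y + 1) := Nat.lt_succ_sqrt _
      exact (Nat.div_lt_iff_lt_mul hm36).mp h1
    obtain ⟨M, hM1, hM2, hM3, hM4⟩ := exists_modulus pr r2 r3 s hs h0 h4 Y hY2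
    have hM : 2 ≤ M := hY2.trans hM1
    have hMr : (2 : ℝ) ≤ M := by exact_mod_cast hM
    have hlM : 0 < Real.log M := Real.log_pos (by linarith)
    have hMX : m * (2 * M) ^ 2 ≤ X := by
      refine le_trans ?_ hY3
      have : M * M ≤ (3 * Y) * (3 * Y) := Nat.mul_le_mul hM2 hM2
      nlinarith
    have hX144 : X < 144 * m * (M * M) := by
      refine lt_of_lt_of_le hY4 ?_
      have h1 : (Y + 1) * (Y + 1) ≤ (2 * M) * (2 * M) := Nat.mul_le_mul (by omega) (by omega)
      nlinarith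
    have hb := block_card pr s M X hs hM hM3 hM4 (by rw [hm]; exact hMX) T
      (by rw [hT]; nlinarith)
    have hb' : (((Finset.Ioc X (2 * X)).filter fun N => ¬ Rep s N).card : ℝ) ≤
        2 * M * (((Finset.Icc 1 (T * M)).filter fun q => ∃ p, p.Prime ∧ M < p ∧ p ∣ q).card : ℝ) := by
      exact_mod_cast hb
    have hct := ct M (T * M) hM
    have e1 : Real.log 4 * ((T * M : ℕ) : ℝ) ^ 2 / (M * Real.log M) =
        Real.log 4 * (T : ℝ) ^ 2 * M / Real.log M := by
      push_cast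
      field_simp
    rw [e1] at hct
    have e2 : (((Finset.Ioc X (2 * X)).filter fun N => ¬ Rep s N).card : ℝ) ≤
        2 * Real.log 4 * (T : ℝ) ^ 2 * (M : ℝ) ^ 2 / Real.log M := by
      refine hb'.trans ?_
      calc 2 * (M : ℝ) * _ ≤ 2 * M * (Real.log 4 * (T : ℝ) ^ 2 * M / Real.log M) :=
            mul_le_mul_of_nonneg_left hct (by positivity)
        _ = _ := by ring
    have e3 : Real.log X ≤ c * Real.log M := by
      have h1 : (X : ℝ) ≤ 144 * m * ((M : ℝ) * M) := by exact_mod_cast hX144.le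
      have h2 : Real.log X ≤ Real.log (144 * m) + 2 * Real.log M := by
        refine (Real.log_le_log (by linarith) h1).trans ?_
        have hm0 : (144 : ℝ) * m ≠ 0 := by positivity
        have hM0 : (M : ℝ) ≠ 0 := by positivity
        have f1 := Real.log_mul hm0 (mul_ne_zero hM0 hM0)
        have f2 := Real.log_mul hM0 hM0
        linarith
      have h3 : Real.log 2 ≤ Real.log M := Real.log_le_log (by norm_num) hMr
      have h4 : Real.log (144 * m) ≤ Real.log (144 * m) / Real.log 2 * Real.log M := by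
        rw [div_mul_eq_mul_div, le_div_iff₀ hl2]
        exact mul_le_mul_of_nonneg_left h3 hlm.le
      rw [hc]
      linarith
    have e4 : (M : ℝ) ^ 2 ≤ X := by
      have : M ^ 2 ≤ X := by
        refine le_trans ?_ hMX
        nlinarith
      exact_mod_cast this
    calc (((Finset.Ioc X (2 * X)).filter fun N => ¬ Rep s N).card : ℝ) * Real.log X
        ≤ 2 * Real.log 4 * (T : ℝ) ^ 2 * (M : ℝ) ^ 2 / Real.log M * (c * Real.log M) :=
          mul_le_mul e2 e3 hlX.le (by positivity)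
      _ = 2 * Real.log 4 * (T : ℝ) ^ 2 * c * (M : ℝ) ^ 2 := by
          field_simp
      _ ≤ 2 * Real.log 4 * (T : ℝ) ^ 2 * c * X :=
          mul_le_mul_of_nonneg_left e4 (by positivity)
      _ ≤ _ := by
          have : 0 ≤ Real.log (144 * m) * X := by positivity
          linarith

end Pool.Agent.W5h72.PP
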