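import Pool.Agent.W5h72.PP.Defs

/-!
# Few numbers have a large prime factor
-/

set_option autoImplicit false

namespace Pool.Agent.W5h72.PP

open Classical in
theorem ct : S_CT := by
  intro M Q hM
  set T : Finset ℕ := (Finset.Ioc M Q).filter Nat.Prime with hT
  have hM0 : (0 : ℝ) < M := by
    have : (0 : ℕ) < M := by omega
    exact_mod_cast this
  have hM1 : (1 : ℝ) < M := by
    have : (1 : ℕ) < M := by omega
    exact_mod_cast this
  have hlog : 0 < Real.log M := Real.log_pos hM1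
  have h1 : ((Finset.Icc 1 Q).filter fun q => ∃ p, p.Prime ∧ M < p ∧ p ∣ q) ⊆
      T.biUnion fun p => (Finset.Ioc 0 Q).filter fun q => p ∣ q := by
    intro q hq
    rw [Finset.mem_filter, Finset.mem_Icc] at hq
    obtain ⟨⟨hq1, hq2⟩, p, hp, hMp, hpq⟩ := hq
    rw [Finset.mem_biUnion]
    refine ⟨p, ?_, ?_⟩
    · rw [hT, Finset.mem_filter, Finset.mem_Ioc]
      exact ⟨⟨hMp, (Nat.le_of_dvd (by omega) hpq).trans hq2⟩, hp⟩
    · rw [Finset.mem_filter, Finset.mem_Ioc]
      exact ⟨⟨by omega, hq2⟩, hpq⟩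
  have h2 : (((Finset.Icc 1 Q).filter fun q => ∃ p, p.Prime ∧ M < p ∧ p ∣ q).card : ℝ) ≤
      ∑ p ∈ T, (Q : ℝ) / M := by
    refine (Nat.cast_le.2 ((Finset.card_le_card h1).trans Finset.card_biUnion_le)).trans ?_
    rw [Nat.cast_sum]
    refine Finset.sum_le_sum fun p hp => ?_
    rw [hT, Finset.mem_filter, Finset.mem_Ioc] at hp
    rw [Nat.Ioc_filter_dvd_card_eq_div]
    refine Nat.cast_div_le.trans ?_
    have h3 : (M : ℝ) ≤ p := by exact_mod_cast hp.1.1.le
    gcongr
  have h3 : (T.card : ℝ) * Real.log M ≤ Real.log 4 * Q := by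
    have h4 : (T.card : ℝ) * Real.log M ≤ Chebyshev.theta Q := by
      rw [← nsmul_eq_mul, ← Finset.sum_const]
      unfold Chebyshev.theta
      rw [Nat.floor_natCast]
      have h5 : ∑ _p ∈ T, Real.log M ≤ ∑ p ∈ T, Real.log p := by
        refine Finset.sum_le_sum fun p hp => ?_
        rw [hT, Finset.mem_filter, Finset.mem_Ioc] at hp
        exact Real.log_le_log hM0 (by exact_mod_cast hp.1.1.le)
      refine h5.trans (Finset.sum_le_sum_of_subset_of_nonneg ?_ ?_)
      · intro p hp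
        rw [hT, Finset.mem_filter, Finset.mem_Ioc] at hp
        rw [Finset.mem_filter, Finset.mem_Ioc]
        exact ⟨⟨by omega, hp.1.2⟩, hp.2⟩
      · intro p hp _
        exact Real.log_natCast_nonneg p
    exact h4.trans (Chebyshev.theta_le_log4_mul_x (Nat.cast_nonneg Q))
  refine h2.trans ?_
  rw [Finset.sum_const, nsmul_eq_mul, le_div_iff₀ (by positivity)]
  have h6 : (T.card : ℝ) * ((Q : ℝ) / M) * (M * Real.log M) = Q * (T.card * Real.log M) := by
    field_simp
  rw [h6]
  calc (Q : ℝ) * (T.card * Real.log M) ≤ Q * (Real.log 4 * Q) := by gcongr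
    _ = Real.log 4 * Q ^ 2 := by ring

end Pool.Agent.W5h72.PP
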