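import Mathlib

/-!
# MP_f8c884_nt: sums of a practical number and a polygonal number
-/

set_option autoImplicit false

namespace Pool.Agent.W5h72.PP

/-- practical numbers -/
def Practical (n : ℕ) : Prop :=
  1 ≤ n ∧ ∀ m, 1 ≤ m → m ≤ n → ∃ D ⊆ n.divisors, ∑ d ∈ D, d = m

/-- the `s`-gonal numbers `k + (s-2) k(k-1)/2` -/
def Pg (s k : ℕ) : ℕ := k + (s - 2) * (k * (k - 1) / 2)

/-- `N` is `s`-representable -/
def Rep (s N : ℕ) : Prop := ∃ p k : ℕ, Practical p ∧ 1 ≤ k ∧ N = p + Pg s k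

/-- (PR) -/
def S_PR : Prop := ∀ M q : ℕ, Practical M → 1 ≤ q → (∀ p, p.Prime → p ∣ q → p ≤ M + 1) →
  Practical (M * q)

/-- (R2) roots modulo powers of two -/
def S_R2 : Prop := ∀ s : ℕ, 3 < s → s % 4 ≠ 0 → ∀ (a : ℕ) (N : ℤ), ∃ k : ℕ, 1 ≤ k ∧
  k ≤ 2 * 2 ^ a ∧ (2 : ℤ) ^ a ∣ N - Pg s k

/-- (R3) roots modulo `2 * 3 ^ b` -/
def S_R3 : Prop := ∀ s : ℕ, 3 < s → s % 12 = 8 → ∀ (b : ℕ) (N : ℤ), ∃ k : ℕ, 1 ≤ k ∧
  k ≤ 2 * 3 ^ b ∧ (2 * 3 ^ b : ℤ) ∣ N - Pg s k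

open Classical in
/-- (CT) few numbers have a large prime factor -/
def S_CT : Prop := ∀ M Q : ℕ, 2 ≤ M →
  (((Finset.Icc 1 Q).filter fun q => ∃ p, p.Prime ∧ M < p ∧ p ∣ q).card : ℝ) ≤
    Real.log 4 * Q ^ 2 / (M * Real.log M)

open Classical in
/-- (CU) from dyadic blocks to initial segments -/
def S_CU : Prop := ∀ (R : ℕ → Prop) (C : ℝ), 0 < C →
  (∀ X : ℕ, 2 ≤ X → (((Finset.Ioc X (2 * X)).filter R).card : ℝ) ≤ C * X / Real.log X) →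
  ∃ C' : ℝ, 0 < C' ∧ ∀ X : ℕ, 2 ≤ X →
    (((Finset.Icc 1 X).filter R).card : ℝ) ≤ C' * X / Real.log X

end Pool.Agent.W5h72.PP
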