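import Mathlib
import Pool.Agent.W5h72.PP.Defs

/-!
# MP_f8c884_nt: from dyadic blocks to initial segments (helper30)
-/

set_option autoImplicit false

namespace Pool.Agent.W5h72.PP

theorem cu : S_CU := by
  classical
  intro R C hC h
  have h81 : 0 < Real.log 81 := Real.log_pos (by norm_num)
  refine ⟨3 + 2 * C + Real.log 81, by linarith, ?_⟩
  intro X
  induction X using Nat.strong_induction_on with
  | _ X ih =>
    intro hX
    have hX1 : (2 : ℝ) ≤ X := by exact_mod_cast hX
    have hlog : 0 < Real.log X := Real.log_pos (by linarith)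
    by_cases hs : X < 81
    · have h1 : (((Finset.Icc 1 X).filter R).card : ℝ) ≤ X := by
        have : ((Finset.Icc 1 X).filter R).card ≤ (Finset.Icc 1 X).card := Finset.card_filter_le _ _
        rw [Nat.card_Icc] at this
        exact_mod_cast this
      have h2 : Real.log X ≤ Real.log 81 :=
        Real.log_le_log (by linarith) (by exact_mod_cast hs.le)
      rw [le_div_iff₀ hlog]
      calc (((Finset.Icc 1 X).filter R).card : ℝ) * Real.log X ≤ X * Real.log 81 :=
            mul_le_mul h1 h2 hlog.le (by linarith)
        _ ≤ (3 + 2 * C + Real.log 81) * X := by nlinarith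
    · rw [not_lt] at hs
      have hs1 : (81 : ℝ) ≤ X := by exact_mod_cast hs
      obtain ⟨Y, hY⟩ : ∃ Y, Y = X / 2 := ⟨_, rfl⟩
      have hY2 : 2 ≤ Y := by omega
      have hY3 : (X : ℝ) / 3 ≤ Y := by
        have : X ≤ 3 * Y := by omega
        have : (X : ℝ) ≤ 3 * Y := by exact_mod_cast this
        linarith
      have hY4 : (Y : ℝ) ≤ X / 2 := by
        have : 2 * Y ≤ X := by omega
        have : (2 : ℝ) * Y ≤ X := by exact_mod_cast this
        linarith
      have hYlog : 3 / 4 * Real.log X ≤ Real.log Y := by
        have h1 : Real.log (X / 3) ≤ Real.log Y := Real.log_le_log (by linarith) hY3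
        rw [Real.log_div (by linarith) (by norm_num)] at h1
        have h2 : Real.log 81 ≤ Real.log X := Real.log_le_log (by norm_num) hs1
        have h3 : Real.log 81 = 4 * Real.log 3 := by
          rw [show (81 : ℝ) = 3 ^ (4 : ℕ) by norm_num, Real.log_pow]
          norm_num
        linarith
      have hYdiv : (Y : ℝ) / Real.log Y ≤ 2 / 3 * (X / Real.log X) := by
        have h1 : 0 < 3 / 4 * Real.log X := by linarith
        calc (Y : ℝ) / Real.log Y ≤ (X / 2) / (3 / 4 * Real.log X) := by
              apply div_le_div₀ (by linarith) hY4 h1 hYlog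
          _ = 2 / 3 * (X / Real.log X) := by
              field_simp
              norm_num
      have hih := ih Y (by omega) hY2
      have hb := h Y hY2
      have hsub : (Finset.Icc 1 X).filter R ⊆
          ((Finset.Icc 1 Y).filter R ∪ (Finset.Ioc Y (2 * Y)).filter R) ∪ {X} := by
        intro n hn
        rw [Finset.mem_filter, Finset.mem_Icc] at hn
        rw [Finset.mem_union, Finset.mem_union, Finset.mem_filter, Finset.mem_filter, Finset.mem_Icc,
          Finset.mem_Ioc, Finset.mem_singleton]
        by_cases h1 : n ≤ Y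
        · exact Or.inl (Or.inl ⟨⟨hn.1.1, h1⟩, hn.2⟩)
        · by_cases h2 : n ≤ 2 * Y
          · exact Or.inl (Or.inr ⟨⟨by omega, h2⟩, hn.2⟩)
          · right
            omega
      have hcard : ((Finset.Icc 1 X).filter R).card ≤
          ((Finset.Icc 1 Y).filter R).card + ((Finset.Ioc Y (2 * Y)).filter R).card + 1 := by
        refine (Finset.card_le_card hsub).trans ((Finset.card_union_le _ _).trans ?_)
        rw [Finset.card_singleton]
        exact Nat.add_le_add_right (Finset.card_union_le _ _) 1
      have hcardR : (((Finset.Icc 1 X).filter R).card : ℝ) ≤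
          ((Finset.Icc 1 Y).filter R).card + ((Finset.Ioc Y (2 * Y)).filter R).card + 1 := by
        exact_mod_cast hcard
      have hone : 1 ≤ (X : ℝ) / Real.log X := by
        rw [le_div_iff₀ hlog, one_mul]
        have := Real.log_le_sub_one_of_pos (by linarith : (0 : ℝ) < X)
        linarith
      obtain ⟨q, hq⟩ : ∃ q : ℝ, q = (X : ℝ) / Real.log X := ⟨_, rfl⟩
      obtain ⟨r, hr⟩ : ∃ r : ℝ, r = (Y : ℝ) / Real.log Y := ⟨_, rfl⟩
      rw [mul_div_assoc] at hih hb ⊢
      rw [← hq] at hone hYdiv ⊢
      rw [← hr] at hYdiv hih hb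
      calc (((Finset.Icc 1 X).filter R).card : ℝ) ≤ (3 + 2 * C + Real.log 81) * r + C * r + 1 := by linarith
        _ = (3 + 3 * C + Real.log 81) * r + 1 := by ring
        _ ≤ (3 + 3 * C + Real.log 81) * (2 / 3 * q) + 1 := by
            have : (3 + 3 * C + Real.log 81) * r ≤ (3 + 3 * C + Real.log 81) * (2 / 3 * q) :=
              mul_le_mul_of_nonneg_left hYdiv (by linarith)
            linarith
        _ ≤ (3 + 2 * C + Real.log 81) * q := by nlinarith

end Pool.Agent.W5h72.PP
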