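import Pool.Agent.W5h72.PP.Defs

/-!
# MP_f8c884_nt: polygonal numbers modulo powers of two
-/

set_option autoImplicit false

namespace Pool.Agent.W5h72.PP

/-- twice the polygonal number, as a polynomial -/
theorem r2_two (s k : ℕ) (hs : 3 < s) :
    2 * ((Pg s k : ℕ) : ℤ) = 2 * (k : ℤ) + ((s : ℤ) - 2) * ((k : ℤ) * ((k : ℤ) - 1)) := by
  have h1 : 2 * (k * (k - 1) / 2) = k * (k - 1) :=
    Nat.mul_div_cancel' (even_iff_two_dvd.1 (Nat.even_mul_pred_self k))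
  have h2 : ((k * (k - 1) : ℕ) : ℤ) = (k : ℤ) * ((k : ℤ) - 1) := by
    rcases k with _ | k
    · simp
    · push_cast
      simp
  have h3 : ((s - 2 : ℕ) : ℤ) = (s : ℤ) - 2 := by
    rw [Nat.cast_sub (by omega)]
    rfl
  have h4 : (k : ℤ) * ((k : ℤ) - 1) = 2 * ((k * (k - 1) / 2 : ℕ) : ℤ) := by
    rw [← h2]
    exact_mod_cast h1.symm
  rw [h4]
  unfold Pg
  generalize k * (k - 1) / 2 = t
  rw [Nat.cast_add, Nat.cast_mul, h3]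
  ring

theorem r2_lift (m N : ℤ) (hm : Odd m ∨ 4 ∣ m) (a : ℕ) : ∃ k : ℕ,
    (2 : ℤ) ^ (a + 1) ∣ 2 * N - (2 * (k : ℤ) + m * ((k : ℤ) * ((k : ℤ) - 1))) := by
  induction a with
  | zero =>
    refine ⟨0, N, ?_⟩
    push_cast
    ring
  | succ a ih =>
    obtain ⟨k, c, hc⟩ := ih
    rcases Int.even_or_odd c with ⟨e, he⟩ | ⟨e, he⟩
    · refine ⟨k, e, ?_⟩
      rw [hc, he]
      ring
    · rcases hm with ⟨f, hf⟩ | ⟨f, hf⟩
      · refine ⟨k + 2 ^ (a + 1), e - ((1 + 2 * f) * ((k : ℤ) + 2 ^ a) - f), ?_⟩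
        have h1 : 2 * N - (2 * (k : ℤ) + m * ((k : ℤ) * ((k : ℤ) - 1))) =
            2 ^ (a + 1) * (2 * e + 1) := by rw [hc, he]
        have h2 : 2 * N = 2 ^ (a + 1) * (2 * e + 1) +
            (2 * (k : ℤ) + m * ((k : ℤ) * ((k : ℤ) - 1))) := by linarith
        rw [h2, hf]
        push_cast
        ring
      · refine ⟨k + 2 ^ a, e - f * (2 * (k : ℤ) + 2 ^ a - 1), ?_⟩
        have h2 : 2 * N = 2 ^ (a + 1) * (2 * e + 1) +
            (2 * (k : ℤ) + m * ((k : ℤ) * ((k : ℤ) - 1))) := by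
          have h1 : 2 * N - (2 * (k : ℤ) + m * ((k : ℤ) * ((k : ℤ) - 1))) =
            2 ^ (a + 1) * (2 * e + 1) := by rw [hc, he]
          linarith
        rw [h2, hf]
        push_cast
        ring

theorem r2 : S_R2 := by
  intro s hs hs4 a N
  have hm : Odd ((s : ℤ) - 2) ∨ (4 : ℤ) ∣ (s : ℤ) - 2 := by
    have h : s % 4 = 1 ∨ s % 4 = 2 ∨ s % 4 = 3 := by omega
    rcases h with h | h | h
    · left; rw [Int.odd_iff]; omega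
    · right; omega
    · left; rw [Int.odd_iff]; omega
  obtain ⟨k, hk⟩ := r2_lift ((s : ℤ) - 2) N hm a
  -- a representative between `1` and `2 ^ (a + 1)`
  obtain ⟨k', h1, h2, h3⟩ : ∃ k' : ℕ, 1 ≤ k' ∧ k' ≤ 2 ^ (a + 1) ∧ k' ≡ k [MOD 2 ^ (a + 1)] := by
    have hn : 0 < 2 ^ (a + 1) := by positivity
    by_cases h0 : k % 2 ^ (a + 1) = 0
    · refine ⟨2 ^ (a + 1), hn, le_rfl, ?_⟩
      change 2 ^ (a + 1) % 2 ^ (a + 1) = k % 2 ^ (a + 1)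
      rw [Nat.mod_self, h0]
    · exact ⟨k % 2 ^ (a + 1), Nat.pos_of_ne_zero h0, (Nat.mod_lt _ hn).le, Nat.mod_modEq _ _⟩
  refine ⟨k', h1, by rw [pow_succ] at h2; omega, ?_⟩
  have h4 : (k' : ℤ) ≡ (k : ℤ) [ZMOD ((2 ^ (a + 1) : ℕ) : ℤ)] := Int.natCast_modEq_iff.2 h3
  have h5 : 2 * (k' : ℤ) + ((s : ℤ) - 2) * ((k' : ℤ) * ((k' : ℤ) - 1)) ≡
      2 * (k : ℤ) + ((s : ℤ) - 2) * ((k : ℤ) * ((k : ℤ) - 1)) [ZMOD ((2 ^ (a + 1) : ℕ) : ℤ)] :=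
    (h4.mul_left 2).add ((h4.mul (h4.sub_right 1)).mul_left _)
  have h6 := h5.dvd
  push_cast at h6
  have h7 := dvd_add hk h6
  have h8 : (2 : ℤ) ^ (a + 1) ∣ 2 * (N - (Pg s k' : ℕ)) := by
    rw [mul_sub, r2_two s k' hs]
    have h9 : 2 * N - (2 * (k' : ℤ) + ((s : ℤ) - 2) * ((k' : ℤ) * ((k' : ℤ) - 1))) =
        2 * N - (2 * (k : ℤ) + ((s : ℤ) - 2) * ((k : ℤ) * ((k : ℤ) - 1))) +
        (2 * (k : ℤ) + ((s : ℤ) - 2) * ((k : ℤ) * ((k : ℤ) - 1)) -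
          (2 * (k' : ℤ) + ((s : ℤ) - 2) * ((k' : ℤ) * ((k' : ℤ) - 1)))) := by ring
    rw [h9]
    exact h7
  rw [pow_succ, mul_comm] at h8
  exact (mul_dvd_mul_iff_left two_ne_zero).1 h8

end Pool.Agent.W5h72.PP
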