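import Mathlib
import Pool.Agent.W5h72.PP.Defs

/-!
# MP_f8c884_nt: roots modulo `2 * 3 ^ b` (helper30)
-/

set_option autoImplicit false

namespace Pool.Agent.W5h72.PP

/-- `k (k - 1) / 2` over the integers -/
lemma two_tri (k : ℕ) : ((k * (k - 1) / 2 : ℕ) : ℤ) * 2 = (k : ℤ) * ((k : ℤ) - 1) := by
  have h1 : k * (k - 1) / 2 * 2 = k * (k - 1) :=
    Nat.div_mul_cancel (Nat.even_mul_pred_self k).two_dvd
  rcases Nat.eq_zero_or_pos k with h | h
  · subst h
    simp
  · have h2 : (((k * (k - 1) / 2 * 2 : ℕ)) : ℤ) = ((k * (k - 1) : ℕ) : ℤ) := by rw [h1]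
    push_cast [Nat.cast_sub h] at h2
    push_cast [Nat.cast_sub h]
    linarith

theorem r3 : S_R3 := by
  intro s hs1 hs2 b
  obtain ⟨u, hu⟩ : ∃ u : ℕ, s - 2 = 12 * u + 6 := ⟨(s - 8) / 12, by omega⟩
  have hP : ∀ k : ℕ, (Pg s k : ℤ) = k + 3 * (2 * u + 1) * (k * (k - 1)) := by
    intro k
    unfold Pg
    rw [hu]
    have h := two_tri k
    push_cast
    push_cast at h
    linear_combination (3 * (2 * (u : ℤ) + 1)) * h
  induction b with
  | zero =>
    intro N
    rcases Int.emod_two_eq_zero_or_one N with h | h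
    · refine ⟨2, by norm_num, by norm_num, ?_⟩
      rw [hP]
      push_cast
      refine ⟨N / 2 - 1 - 3 * (2 * u + 1), ?_⟩
      have : N = 2 * (N / 2) := by omega
      linear_combination this
    · refine ⟨1, by norm_num, by norm_num, ?_⟩
      rw [hP]
      push_cast
      refine ⟨N / 2, ?_⟩
      have : N = 2 * (N / 2) + 1 := by omega
      linear_combination this
  | succ b ih =>
    intro N
    obtain ⟨k, h1, h2, c, hc⟩ := ih N
    rw [hP] at hc
    have hc3 : c = 3 * (c / 3) + c % 3 := (Int.mul_ediv_add_emod c 3).symm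
    have hj0 : 0 ≤ c % 3 := Int.emod_nonneg c (by norm_num)
    have hj2 : c % 3 < 3 := Int.emod_lt_of_pos c (by norm_num)
    obtain ⟨j, hj⟩ : ∃ j : ℕ, (j : ℤ) = c % 3 := ⟨(c % 3).toNat, Int.toNat_of_nonneg hj0⟩
    have hj3 : j ≤ 2 := by omega
    refine ⟨k + 2 * 3 ^ b * j, by omega, ?_, ?_⟩
    · have : 2 * 3 ^ b * j ≤ 2 * 3 ^ b * 2 := Nat.mul_le_mul_left _ hj3
      rw [pow_succ]
      omega
    · rw [hP]
      refine ⟨c / 3 - (2 * u + 1) * j * (2 * k + 2 * 3 ^ b * j - 1), ?_⟩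
      rw [← hj] at hc3
      push_cast
      rw [pow_succ]
      linear_combination hc + (2 * 3 ^ b : ℤ) * hc3

end Pool.Agent.W5h72.PP
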