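import Pool.Agent.W5h72.PP.Defs

/-!
# MP_f8c884_nt: the excluded residue classes of `s`
-/

set_option autoImplicit false

namespace Pool.Agent.W5h72.PP

theorem practical_dvd (p : ℕ) (hp : Practical p) (h2 : 2 < p) : 4 ∣ p ∨ 6 ∣ p := by
  obtain ⟨D2, hD2, e2⟩ := hp.2 2 (by norm_num) (by omega)
  obtain ⟨D3, hD3, e3⟩ := hp.2 3 (by norm_num) (by omega)
  have hmem : ∀ {D : Finset ℕ} {n d : ℕ}, D ⊆ p.divisors → ∑ d ∈ D, d = n → d ∈ D →
      d ∣ p ∧ 1 ≤ d ∧ d ≤ n := by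
    intro D n d hD e hd
    have h1 := Nat.dvd_of_mem_divisors (hD hd)
    refine ⟨h1, Nat.pos_of_dvd_of_pos h1 (by omega), ?_⟩
    rw [← e]
    exact Finset.single_le_sum (f := fun d => d) (fun _ _ => Nat.zero_le _) hd
  have h2p : 2 ∣ p := by
    by_contra hcon
    have : D2 ⊆ {1} := by
      intro d hd
      obtain ⟨h1, h3, h4⟩ := hmem hD2 e2 hd
      have : d ≠ 2 := fun h => hcon (h ▸ h1)
      rw [Finset.mem_singleton]
      omega
    have h5 := Finset.sum_le_sum_of_subset (f := fun d => d) this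
    simp only [Finset.sum_singleton] at h5
    omega
  have h4p : 4 ≤ p := by omega
  obtain ⟨D4, hD4, e4⟩ := hp.2 4 (by norm_num) h4p
  by_contra hcon
  push Not at hcon
  obtain ⟨hc4, hc6⟩ := hcon
  have h3p : ¬ 3 ∣ p := fun h => hc6 (by omega)
  have : D4 ⊆ {1, 2} := by
    intro d hd
    obtain ⟨h1, h3, h4⟩ := hmem hD4 e4 hd
    have g3 : d ≠ 3 := fun h => h3p (h ▸ h1)
    have g4 : d ≠ 4 := fun h => hc4 (h ▸ h1)
    simp only [Finset.mem_insert, Finset.mem_singleton]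
    omega
  have h5 := Finset.sum_le_sum_of_subset (f := fun d => d) this
  rw [Finset.sum_pair (by norm_num)] at h5
  omega

theorem sh (s : ℕ) (hs : 3 < s) (h : s % 12 = 0 ∨ s % 12 = 4) (N : ℕ)
    (hN : N % 12 = 2 ∨ N % 12 = 11) (hr : Rep s N) :
    ∃ k, 1 ≤ k ∧ (N = 1 + Pg s k ∨ N = 2 + Pg s k) := by
  obtain ⟨p, k, hp, hk, e⟩ := hr
  refine ⟨k, hk, ?_⟩
  by_contra hcon
  have hp2 : 2 < p := by
    have := hp.1
    by_contra h2
    have : p = 1 ∨ p = 2 := by omega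
    rcases this with rfl | rfl
    · exact hcon (Or.inl e)
    · exact hcon (Or.inr e)
  have hd := practical_dvd p hp hp2
  obtain ⟨j, rfl⟩ : ∃ j, k = j + 1 := ⟨k - 1, by omega⟩
  obtain ⟨m, hm⟩ : ∃ m, s - 2 = 2 * m ∧ m % 2 = 1 ∧ m % 3 ≠ 0 := ⟨(s - 2) / 2, by omega⟩
  have e1 : Pg s (j + 1) = j + 1 + m * ((j + 1) * j) := by
    unfold Pg
    rw [hm.1, Nat.add_sub_cancel]
    have : 2 ∣ (j + 1) * j := by
      have := Nat.even_mul_succ_self j
      rw [mul_comm]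
      exact this.two_dvd
    obtain ⟨t, ht⟩ := this
    rw [ht, Nat.mul_div_cancel_left _ (by norm_num)]
    ring
  have hm4 : m % 12 = 1 ∨ m % 12 = 5 ∨ m % 12 = 7 ∨ m % 12 = 11 := by omega
  have e2 : Pg s (j + 1) % 12 = (j % 12 + 1 + (m % 12) * ((j % 12 + 1) * (j % 12))) % 12 := by
    rw [e1]
    simp [Nat.add_mod, Nat.mul_mod]
  have hj : j % 12 < 12 := Nat.mod_lt _ (by norm_num)
  have hN12 : N % 12 = (p % 12 + Pg s (j + 1) % 12) % 12 := by rw [e, Nat.add_mod]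
  have hp12 : p % 12 = 0 ∨ p % 12 = 4 ∨ p % 12 = 8 ∨ p % 12 = 6 := by omega
  have hs5 : m % 12 = 1 ∨ m % 12 = 7 ∨ m % 12 = 5 ∨ m % 12 = 11 := by omega
  generalize hJ : j % 12 = J at *
  generalize hP : Pg s (j + 1) % 12 = P at *
  rcases hs5 with h5 | h5 | h5 | h5 <;> rw [h5] at e2 <;> interval_cases J <;> simp at e2 <;> omega

end Pool.Agent.W5h72.PP
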