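import Pool.Agent.W5h72.PP.PR
import Pool.Agent.W5h72.PP.R2
import Pool.Agent.W5h72.PP.R3
import Pool.Agent.W5h72.PP.CT
import Pool.Agent.W5h72.PP.CU
import Pool.Agent.W5h72.PP.Blk
import Pool.Agent.W5h72.PP.Sh

/-!
# MP_f8c884_nt: assembly
-/

set_option autoImplicit false

open Filter Topology

namespace Pool.Agent.W5h72.PP

open Classical in
theorem few (s : ℕ) (hs : 3 < s) (h0 : s % 12 ≠ 0) (h4 : s % 12 ≠ 4) :
    ∃ C : ℝ, 0 < C ∧ ∀ X : ℕ, 2 ≤ X →
      (((Finset.Icc 1 X).filter fun N => ¬ Rep s N).card : ℝ) ≤ C * X / Real.log X := by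
  obtain ⟨C, hC, h⟩ := blk pr r2 r3 ct s hs h0 h4
  obtain ⟨C', hC', h'⟩ := cu (fun N => ¬ Rep s N) C hC (fun X hX => by convert h X hX)
  exact ⟨C', hC', fun X hX => by convert h' X hX⟩

open Classical in
theorem dens (R : ℕ → Prop) (C : ℝ) (_hC : 0 < C) (h : ∀ X : ℕ, 2 ≤ X →
      (((Finset.Icc 1 X).filter fun N => ¬ R N).card : ℝ) ≤ C * X / Real.log X) :
    Tendsto (fun X : ℕ => (((Finset.Icc 1 X).filter R).card : ℝ) / X) atTop (𝓝 1) := by
  have h1 : Tendsto (fun X : ℕ => 1 - C / Real.log X) atTop (𝓝 1) := by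
    have : Tendsto (fun X : ℕ => C / Real.log X) atTop (𝓝 0) :=
      (Real.tendsto_log_atTop.comp tendsto_natCast_atTop_atTop).const_div_atTop C
    simpa using this.const_sub 1
  refine tendsto_of_tendsto_of_tendsto_of_le_of_le' h1 tendsto_const_nhds ?_ ?_
  · filter_upwards [eventually_ge_atTop 2] with X hX
    have hXr : (2 : ℝ) ≤ X := by exact_mod_cast hX
    have e := Finset.card_filter_add_card_filter_not (s := Finset.Icc 1 X) R
    rw [Nat.card_Icc, Nat.add_sub_cancel] at e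
    have e' : (((Finset.Icc 1 X).filter R).card : ℝ) +
        (((Finset.Icc 1 X).filter fun N => ¬ R N).card : ℝ) = X := by exact_mod_cast e
    have h2 := h X hX
    rw [le_div_iff₀ (by linarith)]
    have e3 : (1 - C / Real.log X) * X = X - C * X / Real.log X := by ring
    rw [e3]
    linarith
  · filter_upwards [eventually_ge_atTop 2] with X hX
    have hXr : (2 : ℝ) ≤ X := by exact_mod_cast hX
    rw [div_le_one (by linarith)]
    have := Finset.card_filter_le (Finset.Icc 1 X) R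
    rw [Nat.card_Icc, Nat.add_sub_cancel] at this
    exact_mod_cast this

/-- the literal formula for the polygonal numbers -/
theorem poly_eq (s k : ℕ) (hs : 3 < s) (hk : 1 ≤ k) :
    ((s - 2) * k ^ 2 - (s - 4) * k) / 2 = Pg s k := by
  obtain ⟨t, rfl⟩ : ∃ t, s = t + 4 := ⟨s - 4, by omega⟩
  obtain ⟨j, rfl⟩ : ∃ j, k = j + 1 := ⟨k - 1, by omega⟩
  unfold Pg
  have e1 : t + 4 - 2 = t + 2 := by omega
  rw [e1, Nat.add_sub_cancel, Nat.add_sub_cancel]
  obtain ⟨c, hc⟩ : ∃ c, (j + 1) * j = 2 * c := by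
    have := (Nat.even_mul_succ_self j).two_dvd
    rw [mul_comm] at this
    exact this
  rw [hc, Nat.mul_div_cancel_left _ (by norm_num)]
  have e2 : (t + 2) * (j + 1) ^ 2 = t * (j + 1) + 2 * ((j + 1) + (t + 2) * c) := by
    nlinarith
  rw [e2, Nat.add_sub_cancel_left, Nat.mul_div_cancel_left _ (by norm_num)]

end Pool.Agent.W5h72.PP
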