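import Pool.Agent.W5h72.PP.Defs

set_option autoImplicit false

namespace Pool.Agent.W5h72.PP

theorem practical_repr {M m : ℕ} (h : Practical M) (hm : m ≤ M) :
    ∃ D ⊆ M.divisors, ∑ d ∈ D, d = m := by
  rcases Nat.eq_zero_or_pos m with h0 | h0
  · exact ⟨∅, Finset.empty_subset _, by simp [h0]⟩
  · exact h.2 m h0 hm

theorem practical_step {M p : ℕ} (h : Practical M) (hp : 1 ≤ p) (hpM : p ≤ M + 1) :
    Practical (M * p) := by
  have hM : 1 ≤ M := h.1
  refine ⟨Nat.mul_pos hM hp, fun m hm1 hm2 => ?_⟩
  have ha : m / p ≤ M := by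
    rw [Nat.div_le_iff_le_mul_add_pred hp]
    nlinarith [Nat.mul_comm M p]
  have hbp : m % p < p := Nat.mod_lt _ hp
  have hb : m % p ≤ M := by omega
  obtain ⟨A, hA, hAs⟩ := practical_repr h ha
  obtain ⟨B, hB, hBs⟩ := practical_repr h hb
  refine ⟨A.image (fun d => p * d) ∪ B, ?_, ?_⟩
  · intro d hd
    rw [Finset.mem_union, Finset.mem_image] at hd
    rw [Nat.mem_divisors]
    refine ⟨?_, by positivity⟩
    rcases hd with ⟨e, he, rfl⟩ | hd
    · rw [Nat.mul_comm M p]
      exact Nat.mul_dvd_mul_left p (Nat.dvd_of_mem_divisors (hA he))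
    · exact Dvd.dvd.mul_right (Nat.dvd_of_mem_divisors (hB hd)) p
  · have hdis : Disjoint (A.image (fun d => p * d)) B := by
      rw [Finset.disjoint_left]
      intro d hd hdB
      rw [Finset.mem_image] at hd
      obtain ⟨e, he, rfl⟩ := hd
      have he1 : 0 < e := Nat.pos_of_mem_divisors (hA he)
      have h1 : p * e ≤ m % p := by
        rw [← hBs]
        exact Finset.single_le_sum (f := fun d => d) (fun _ _ => Nat.zero_le _) hdB
      have h2 : p ≤ p * e := Nat.le_mul_of_pos_right p he1
      omega
    rw [Finset.sum_union hdis, Finset.sum_image, ← Finset.mul_sum, hAs, hBs]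
    · exact Nat.div_add_mod m p
    · intro x _ y _ hxy
      exact Nat.eq_of_mul_eq_mul_left hp hxy

theorem pr : S_PR := by
  intro M q hM hq
  induction q using Nat.strong_induction_on with
  | _ q ih =>
    intro hpr
    rcases Nat.eq_or_lt_of_le hq with h1 | h1
    · rw [← h1, Nat.mul_one]; exact hM
    · have hp := Nat.minFac_prime (n := q) (by omega)
      obtain ⟨r, hr⟩ := Nat.minFac_dvd q
      have hr0 : 1 ≤ r := by
        rcases Nat.eq_zero_or_pos r with h | h
        · rw [h, Nat.mul_zero] at hr; omega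
        · exact h
      have hrq : r < q := by
        have h2 := hp.two_le
        calc r < 2 * r := by omega
          _ ≤ q.minFac * r := Nat.mul_le_mul_right r h2
          _ = q := hr.symm
      have h3 := ih r hrq hr0 (fun p hp' hpd => hpr p hp' (by
        rw [hr]; exact Dvd.dvd.mul_left hpd _))
      have h4 : q.minFac ≤ M * r + 1 := by
        have h5 := hpr _ hp (Nat.minFac_dvd q)
        have h6 : M ≤ M * r := Nat.le_mul_of_pos_right M hr0
        omega
      have h7 := practical_step h3 hp.one_le h4
      have h8 : M * r * q.minFac = M * q := by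
        conv_rhs => rw [hr]
        ring
      rwa [h8] at h7

end Pool.Agent.W5h72.PP
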